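import Pool.Agent.H484.HH.Stm

/-! # HH-CF: values of a convolution of two arcs (helper746) -/

set_option autoImplicit false

open Finset

namespace Pool.Agent.H484.HH

theorem cf_iff {N : ℕ} [NeZero N] (z x : ZMod N) {n n' i i' : ℕ} (hN : n + n' ≤ N + 1)
    (hi : i < n) (hi' : i' < n') : z + (i : ZMod N) + (i' : ZMod N) = x ↔ i + i' = (x - z).val := by
  have hlt : i + i' < N := by omega
  have h1 : z + (i : ZMod N) + (i' : ZMod N) = x ↔ ((i + i' : ℕ) : ZMod N) = x - z := by
    rw [Nat.cast_add, add_assoc, eq_sub_iff_add_eq, add_comm z]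
  rw [h1]
  constructor
  · intro h
    rw [← h, ZMod.val_natCast_of_lt hlt]
  · intro h
    rw [h, ZMod.natCast_zmod_val]

theorem t_CF : S_CF := by
  intro N _ z n n' hN x
  unfold conv
  have h1 : ∀ i ∈ range n, (∑ i' ∈ range n',
      if z + (i : ZMod N) + (i' : ZMod N) = x then (1 : ℝ) else 0) =
      if (x - z).val + 1 - n' ≤ i ∧ i < (x - z).val + 1 then (1 : ℝ) else 0 := by
    intro i hi
    rw [mem_range] at hi
    have h2 : ∀ i' ∈ range n', (if z + (i : ZMod N) + (i' : ZMod N) = x then (1 : ℝ) else 0) =
        if i + i' = (x - z).val then (1 : ℝ) else 0 := by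
      intro i' hi'
      rw [mem_range] at hi'
      simp only [cf_iff z x hN hi hi']
    rw [sum_congr rfl h2]
    by_cases hc : (x - z).val + 1 - n' ≤ i ∧ i < (x - z).val + 1
    · rw [if_pos hc]
      rw [sum_eq_single ((x - z).val - i)]
      · rw [if_pos (by omega)]
      · intro j _ hj
        rw [if_neg (by omega)]
      · intro hj
        rw [mem_range] at hj
        exfalso
        omega
    · rw [if_neg hc]
      refine sum_eq_zero fun j hj => ?_
      rw [mem_range] at hj
      rw [if_neg (by omega)]
  rw [sum_congr rfl h1, sum_boole]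
  congr 1
  have h3 : (range n).filter (fun i => (x - z).val + 1 - n' ≤ i ∧ i < (x - z).val + 1) =
      Ico ((x - z).val + 1 - n') (min n ((x - z).val + 1)) := by
    ext i
    rw [mem_filter, mem_range, mem_Ico]
    omega
  rw [h3, Nat.card_Ico]

end Pool.Agent.H484.HH
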