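import Pool.Agent.H484.HH.Stm

/-! # HH-TERM: average of one scale over good generators (helper746) -/

set_option autoImplicit false

open Finset

namespace Pool.Agent.H484.HH

namespace TERM

/-- the summable part of the weight -/
noncomputable def U {N : ℕ} [NeZero N] (j : ℕ) (k : ZMod N) : ℝ :=
  1 / ((1 + 2 ^ j * M k / N) * Real.sqrt (1 + 2 ^ j * M k / N))

theorem M_one {N : ℕ} [NeZero N] (k : ZMod N) : 1 ≤ M k := le_max_left _ _

theorem y_nonneg {N : ℕ} [NeZero N] (j : ℕ) (k : ZMod N) : 0 ≤ 2 ^ j * M k / (N : ℝ) := by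
  have := M_one k
  positivity

theorem U_nonneg {N : ℕ} [NeZero N] (j : ℕ) (k : ZMod N) : 0 ≤ U j k := by
  have := y_nonneg j k
  unfold U
  positivity

theorem W_eq {N : ℕ} [NeZero N] (j : ℕ) (k : ZMod N) :
    W j k = U j k * (1 / Real.sqrt (1 + 2 ^ j * M k / N)) := by
  have h := y_nonneg j k
  unfold W U
  have h1 : 0 < 1 + 2 ^ j * M k / (N : ℝ) := by linarith
  have h2 : Real.sqrt (1 + 2 ^ j * M k / N) * Real.sqrt (1 + 2 ^ j * M k / N) =
      1 + 2 ^ j * M k / N := Real.mul_self_sqrt h1.le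
  rw [div_mul_div_comm, one_mul, mul_assoc, h2, pow_two]

theorem V_pos {N : ℕ} [NeZero N] {t : ℕ} (j0 : ℕ) (j : Fin t → ℕ) : 0 < V N j0 j := by
  have : (0 : ℝ) < N := Nat.cast_pos.2 (NeZero.pos N)
  unfold V
  refine mul_pos (by positivity) (prod_pos fun i _ => by positivity)

/-- the pointwise estimate -/
theorem pointwise {N : ℕ} [NeZero N] {t : ℕ} {T : ℝ} (hT : 1 ≤ T) (j0 : ℕ) (j : Fin t → ℕ)
    {h : Fin t → ZMod N} (hg : good T h) {k : Fin t → ZMod N} (hk : k ≠ 0) :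
    W j0 (-(∑ i, k i * h i)) * ∏ i, W (j i) (k i) ≤
      min 1 (Real.sqrt (T / V N j0 j)) *
        (U j0 (-(∑ i, k i * h i)) * ∏ i, U (j i) (k i)) := by
  have hN : (0 : ℝ) < N := Nat.cast_pos.2 (NeZero.pos N)
  have hT0 : 0 < T := lt_of_lt_of_le one_pos hT
  have hV := V_pos (N := N) j0 j
  set r : ZMod N := -(∑ i, k i * h i) with hr
  have hgood := hg k hk
  rw [← hr] at hgood
  set P : ℝ := (1 + 2 ^ j0 * M r / N) * ∏ i, (1 + 2 ^ j i * M (k i) / N) with hP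
  have e1 : W j0 r * ∏ i, W (j i) (k i) =
      (U j0 r * ∏ i, U (j i) (k i)) * (1 / Real.sqrt P) := by
    have e2 : ∏ i, W (j i) (k i) = (∏ i, U (j i) (k i)) *
        ∏ i, (1 / Real.sqrt (1 + 2 ^ j i * M (k i) / N)) := by
      rw [← prod_mul_distrib]
      exact prod_congr rfl fun i _ => W_eq _ _
    have e3 : Real.sqrt P = Real.sqrt (1 + 2 ^ j0 * M r / N) *
        ∏ i, Real.sqrt (1 + 2 ^ j i * M (k i) / N) := by
      rw [hP, Real.sqrt_mul (by have := y_nonneg j0 r; linarith), Real.sqrt_prod]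
      intro i _
      have := y_nonneg (j i) (k i)
      linarith
    rw [W_eq, e2, e3]
    have e4 : ∏ i, (1 / Real.sqrt (1 + 2 ^ j i * M (k i) / N)) =
        1 / ∏ i, Real.sqrt (1 + 2 ^ j i * M (k i) / N) := by
      rw [prod_div_distrib, prod_const_one]
    rw [e4]
    ring
  rw [e1, mul_comm]
  refine mul_le_mul_of_nonneg_right ?_
    (mul_nonneg (U_nonneg _ _) (prod_nonneg fun i _ => U_nonneg _ _))
  have hP1 : 1 ≤ P := by
    have h1 : 1 ≤ 1 + 2 ^ j0 * M r / (N : ℝ) := by have := y_nonneg j0 r; linarith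
    have h2 : 1 ≤ ∏ i, (1 + 2 ^ j i * M (k i) / (N : ℝ)) := by
      calc (1 : ℝ) = ∏ _i : Fin t, (1 : ℝ) := by rw [prod_const_one]
        _ ≤ _ := prod_le_prod (fun _ _ => zero_le_one) fun i _ => by
            have := y_nonneg (j i) (k i); linarith
    rw [hP]
    nlinarith
  have hPV : V N j0 j / T ≤ P := by
    have h1 : (2 ^ j0 * M r / N) * ∏ i, (2 ^ j i * M (k i) / (N : ℝ)) ≤ P := by
      rw [hP]
      refine mul_le_mul ?_ ?_ (prod_nonneg fun i _ => y_nonneg _ _) ?_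
      · linarith
      · exact prod_le_prod (fun i _ => y_nonneg _ _) fun i _ => by linarith
      · have := y_nonneg j0 r; linarith
    refine le_trans ?_ h1
    have h2 : ∏ i, (2 ^ j i * M (k i) / (N : ℝ)) =
        (∏ i, ((2 : ℝ) ^ j i / N)) * ∏ i, M (k i) := by
      rw [← prod_mul_distrib]
      exact prod_congr rfl fun i _ => by ring
    rw [h2]
    have h3 : (2 ^ j0 * M r / N) * ((∏ i, ((2 : ℝ) ^ j i / N)) * ∏ i, M (k i)) =
        V N j0 j / N * (M r * ∏ i, M (k i)) := by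
      unfold V
      ring
    rw [h3]
    calc V N j0 j / T = V N j0 j / N * (N / T) := by field_simp
      _ ≤ _ := mul_le_mul_of_nonneg_left hgood (by positivity)
  refine le_min ?_ ?_
  · rw [div_le_one (Real.sqrt_pos.2 (by linarith))]
    rw [Real.one_le_sqrt]
    exact hP1
  · have h1 : 0 < V N j0 j / T := by positivity
    calc 1 / Real.sqrt P ≤ 1 / Real.sqrt (V N j0 j / T) :=
          one_div_le_one_div_of_le (Real.sqrt_pos.2 h1) (Real.sqrt_le_sqrt hPV)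
      _ = Real.sqrt (T / V N j0 j) := by
          rw [← Real.sqrt_one, ← Real.sqrt_div zero_le_one, one_div_div]

end TERM

open TERM

theorem t_TERM (hAVG : S_AVG) (hWS : S_WS) : S_TERM := by
  intro N _ t T j0 j hT hj0 hj G hG
  have hN : (0 : ℝ) < N := Nat.cast_pos.2 (NeZero.pos N)
  have hN1 : (1 : ℝ) ≤ N := by exact_mod_cast (NeZero.pos N)
  have hV := V_pos (N := N) j0 j
  set m : ℝ := min 1 (Real.sqrt (T / V N j0 j)) with hm
  have hm0 : 0 ≤ m := le_min zero_le_one (Real.sqrt_nonneg _)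
  let φ : ZMod N → (Fin t → ZMod N) → ℝ := fun r k => U j0 r * ∏ i, U (j i) (k i)
  have hφ : ∀ r k, 0 ≤ φ r k := fun r k =>
    mul_nonneg (U_nonneg _ _) (prod_nonneg fun i _ => U_nonneg _ _)
  have h1 : ∑ h ∈ G, V N j0 j * ∑ k ∈ univ.filter (fun k : Fin t → ZMod N => k ≠ 0),
        W j0 (-(∑ i, k i * (h i : ZMod N))) * ∏ i, W (j i) (k i) ≤
      ∑ h ∈ G, V N j0 j * m * ∑ k ∈ univ.filter (fun k : Fin t → ZMod N => k ≠ 0),
        φ (-(∑ i, k i * (h i : ZMod N))) k := by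
    refine sum_le_sum fun h hh => ?_
    rw [mul_assoc]
    refine mul_le_mul_of_nonneg_left ?_ hV.le
    rw [mul_sum]
    refine sum_le_sum fun k hk => ?_
    exact pointwise hT j0 j (hG h hh) (mem_filter.1 hk).2
  refine h1.trans ?_
  rw [← mul_sum]
  have h2 : ∑ h ∈ G, ∑ k ∈ univ.filter (fun k : Fin t → ZMod N => k ≠ 0),
        φ (-(∑ i, k i * (h i : ZMod N))) k ≤
      ((N : ℝ) - 1) ^ t * (2 / N) * ∑ k : Fin t → ZMod N, ∑ r : ZMod N, φ r k := by
    refine le_trans ?_ (hAVG N t φ hφ)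
    exact sum_le_sum_of_subset_of_nonneg (subset_univ _) fun h _ _ =>
      sum_nonneg fun k _ => hφ _ _
  have h3 : ∑ k : Fin t → ZMod N, ∑ r : ZMod N, φ r k =
      (∑ r : ZMod N, U j0 r) * ∏ i, ∑ k : ZMod N, U (j i) k := by
    have e1 : ∀ k : Fin t → ZMod N, ∑ r : ZMod N, φ r k =
        (∑ r : ZMod N, U j0 r) * ∏ i, U (j i) (k i) := fun k => (sum_mul _ _ _).symm
    rw [sum_congr rfl fun k _ => e1 k, ← mul_sum, prod_univ_sum, Fintype.piFinset_univ]
  have hWS0 : ∑ r : ZMod N, U j0 r ≤ 5 * (N / 2 ^ j0) :=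
    hWS N j0 (Nat.pow_le_of_le_log (NeZero.ne N) hj0)
  have hWSi : ∀ i, ∑ k : ZMod N, U (j i) k ≤ 5 * (N / 2 ^ j i) := by
    intro i
    refine hWS N (j i) (Nat.pow_le_of_le_log (NeZero.ne N) ?_)
    have := Fintype.mem_piFinset.1 hj i
    rw [mem_range] at this
    omega
  have h4 : (∑ r : ZMod N, U j0 r) * ∏ i, ∑ k : ZMod N, U (j i) k ≤
      5 * (N / 2 ^ j0) * ∏ i, (5 * ((N : ℝ) / 2 ^ j i)) := by
    refine mul_le_mul hWS0 ?_ (prod_nonneg fun i _ => sum_nonneg fun k _ => U_nonneg _ _)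
      (by positivity)
    exact prod_le_prod (fun i _ => sum_nonneg fun k _ => U_nonneg _ _) fun i _ => hWSi i
  have h5 : V N j0 j * (1 / N) * (5 * (N / 2 ^ j0) * ∏ i, (5 * ((N : ℝ) / 2 ^ j i))) =
      5 ^ (t + 1) := by
    have e1 : ∏ i, (5 * ((N : ℝ) / 2 ^ j i)) = 5 ^ t * ∏ i, ((N : ℝ) / 2 ^ j i) := by
      rw [prod_mul_distrib, prod_const, card_univ, Fintype.card_fin]
    have e2 : (∏ i, ((2 : ℝ) ^ j i / N)) * ∏ i, ((N : ℝ) / 2 ^ j i) = 1 := by
      rw [← prod_mul_distrib]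
      refine prod_eq_one fun i _ => ?_
      field_simp
    rw [e1]
    unfold V
    calc 2 ^ j0 * (∏ i, ((2 : ℝ) ^ j i / N)) * (1 / N) *
          (5 * (N / 2 ^ j0) * (5 ^ t * ∏ i, ((N : ℝ) / 2 ^ j i)))
        = (2 ^ j0 / 2 ^ j0) * (N / N) * 5 ^ (t + 1) *
          ((∏ i, ((2 : ℝ) ^ j i / N)) * ∏ i, ((N : ℝ) / 2 ^ j i)) := by ring
      _ = 5 ^ (t + 1) := by
          rw [e2, div_self (by positivity), div_self hN.ne', one_mul, one_mul, mul_one]
  have hN1t : 0 ≤ ((N : ℝ) - 1) ^ t := pow_nonneg (by linarith) t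
  calc V N j0 j * m * ∑ h ∈ G, ∑ k ∈ univ.filter (fun k : Fin t → ZMod N => k ≠ 0),
        φ (-(∑ i, k i * (h i : ZMod N))) k
      ≤ V N j0 j * m * (((N : ℝ) - 1) ^ t * (2 / N) *
          (5 * (N / 2 ^ j0) * ∏ i, (5 * ((N : ℝ) / 2 ^ j i)))) := by
        refine mul_le_mul_of_nonneg_left (h2.trans ?_) (mul_nonneg hV.le hm0)
        rw [h3]
        exact mul_le_mul_of_nonneg_left h4 (mul_nonneg hN1t (by positivity))
    _ = 2 * (V N j0 j * (1 / N) * (5 * (N / 2 ^ j0) * ∏ i, (5 * ((N : ℝ) / 2 ^ j i)))) *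
          ((N : ℝ) - 1) ^ t * m := by ring
    _ = 2 * 5 ^ (t + 1) * ((N : ℝ) - 1) ^ t * m := by rw [h5]

end Pool.Agent.H484.HH
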